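import Pool.Agent.P.MP_40e4cd_al.Main

set_option autoImplicit false

namespace Pool.Agent.Results.MP_40e4cd_al.KroneckerCounterexample

open Pool.Agent.P.MP_40e4cd_al

universe u

/-- Disproof of Q1, over every field: two finite quivers whose Kronecker squares have isomorphic
Leavitt path algebras while their own Leavitt path algebras are not isomorphic.
The first quiver is a loop followed by a path of length 7, the second a loop with three exits to
three sinks. -/
theorem result (K : Type u) [Field K] :
    ∃ (n m n' m' : ℕ) (s r : Fin m → Fin n) (s' r' : Fin m' → Fin n'),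
      Nonempty (LPA K (Prod.map s s) (Prod.map r r) ≃ₐ[K] LPA K (Prod.map s' s') (Prod.map r' r')) ∧
      IsEmpty (LPA K s r ≃ₐ[K] LPA K s' r') := by
  refine ⟨8, 8, 4, 4, fun a => Fin.ofNat 8 (a.val - 1), id, fun _ => 0, id, ?_, ?_⟩
  · exact iso_of_sinks (S := Fin 15) (ρ := (0, 0)) (D := 7) (ρ' := (0, 0)) (D' := 1)
      (ι := fun k => if k.val < 8 then (7, Fin.ofNat 8 k.val) else (Fin.ofNat 8 k.val, 7))
      (ι' := fun k => (Fin.ofNat 4 ((k.val + 1) / 4), Fin.ofNat 4 (k.val + 1)))
      (by decide +kernel) ⟨by decide +kernel, by decide +kernel⟩ (by decide +kernel)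
      ⟨by decide +kernel, by decide +kernel⟩
  · exact not_iso (S := Fin 3) (ρ := 0) (D := 7) (ρ' := 0) (D' := 1) (ι := fun _ => 7)
      (ι' := fun k => k.succ) (by decide) ⟨by decide, by decide⟩ (by decide)
      ⟨by decide, by decide⟩ 0 1 (by decide)

end Pool.Agent.Results.MP_40e4cd_al.KroneckerCounterexample
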